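import Pool.Agent.H5.OR.Targets3

/-!
# Row HF of ors_modules: the theorem on the relators `v w^p v⁻¹ w^(-q)`
-/

set_option autoImplicit false

open scoped Classical

namespace Pool.Agent.H5.ORS

open ORg

/-- equivalent relators give isomorphic groups -/
theorem or_of_eq {A B : Type} (θ : FreeGroup A ≃* FreeGroup B) (r : FreeGroup A)
    (s : FreeGroup B) (h : θ r = s ∨ θ r = s⁻¹) : Nonempty (OR r ≃* OR s) := by
  have hmap : (Subgroup.normalClosure ({r} : Set (FreeGroup A))).map (θ : FreeGroup A →* FreeGroup B) =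
      Subgroup.normalClosure ({s} : Set (FreeGroup B)) := by
    rw [Subgroup.map_normalClosure _ _ θ.surjective, Set.image_singleton]
    rcases h with h | h
    · change Subgroup.normalClosure {θ r} = _
      rw [h]
    · change Subgroup.normalClosure {θ r} = _
      rw [h]
      apply le_antisymm
      · apply Subgroup.normalClosure_le_normal
        rw [Set.singleton_subset_iff]
        exact inv_mem (Subgroup.subset_normalClosure (Set.mem_singleton s))
      · apply Subgroup.normalClosure_le_normal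
        rw [Set.singleton_subset_iff]
        have : s⁻¹⁻¹ ∈ Subgroup.normalClosure ({s⁻¹} : Set (FreeGroup B)) :=
          inv_mem (Subgroup.subset_normalClosure (Set.mem_singleton s⁻¹))
        simpa using this
  exact ⟨QuotientGroup.congr _ _ θ hmap⟩

theorem pf_HF (NB : T_NB) (HO : T_HO) : T_HF := by
  intro X Y X' Y' _ _ _ _ v w v' w' p q p' q' hv hw hv' hw' hp hq hp' hq'
  constructor
  · rintro ⟨φ⟩
    obtain ⟨k, j, X1, Z1, fX, fZ, u, θ, hk, hj, hr, hl, hθ⟩ := NB X Y v w p q hv hw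
    obtain ⟨k', j', X1', Z1', fX', fZ', u', θ', hk', hj', hr', hl', hθ'⟩ :=
      NB X' Y' v' w' p' q' hv' hw'
    obtain ⟨e1⟩ := or_of_eq θ _ _ (Or.inl hθ)
    obtain ⟨e2⟩ := or_of_eq θ' _ _ (Or.inl hθ')
    have hj0 : (j : ℤ) ≠ 0 := by exact_mod_cast hj.ne'
    have hj0' : (j' : ℤ) ≠ 0 := by exact_mod_cast hj'.ne'
    obtain ⟨θ1, h1⟩ := HO X1 Z1 X1' Z1' fX fZ fX' fZ' u u' k (j * p) (j * q) k' (j' * p')
      (j' * q') hk (mul_ne_zero hj0 hp) (mul_ne_zero hj0 hq) hk' (mul_ne_zero hj0' hp')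
      (mul_ne_zero hj0' hq') hr hl hr' hl' ⟨(e1.symm.trans φ).trans e2⟩
    refine ⟨(θ.trans θ1).trans θ'.symm, ?_⟩
    have h2 : ((θ.trans θ1).trans θ'.symm) (rl v w p q) = θ'.symm (θ1 (θ (rl v w p q))) := rfl
    rw [h2, hθ]
    rcases h1 with h1 | h1
    · left
      rw [h1, ← hθ', MulEquiv.symm_apply_apply]
    · right
      rw [h1, ← hθ', ← map_inv, MulEquiv.symm_apply_apply]
  · rintro ⟨θ, hθ⟩
    exact or_of_eq θ _ _ hθ

end Pool.Agent.H5.ORS
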